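import Pool.Agent.H15.TB1.M102

/-!
# MP_3532bd_nt: an infinite sumset of primes and products of two primes

There are strictly increasing sequences b and c of positive integers such that b i + c j is a prime number whenever i ≤ j, and
is a prime number or a product of two (possibly equal) prime numbers, each of them larger than the twelfth root of b i + c j,
whenever j < i.
-/

set_option autoImplicit false

theorem Pool.Agent.Results.MP_3532bd_nt.PrimeOrTwo.result :
    ∃ b c : ℕ → ℕ, StrictMono b ∧ StrictMono c ∧ (∀ i, 0 < b i ∧ 0 < c i) ∧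
      (∀ i j, i ≤ j → (b i + c j).Prime) ∧
      (∀ i j, j < i → ((b i + c j).Prime ∨ ∃ p q : ℕ, p.Prime ∧ q.Prime ∧ b i + c j = p * q) ∧
        ∀ p : ℕ, p.Prime → p ∣ b i + c j → b i + c j < p ^ 12) := by
  obtain ⟨b, c, hb, hc, h1, h2⟩ := Pool.Agent.H36.IS2.main_pp
  refine ⟨fun i => b (i + 1), fun i => c (i + 1), fun i j hij => hb (Nat.succ_lt_succ hij),
    fun i j hij => hc (Nat.succ_lt_succ hij), fun i => ⟨?_, ?_⟩, fun i j hij => h1 _ _ (Nat.succ_le_succ hij),
    fun i j hij => ?_⟩
  · exact lt_of_le_of_lt (Nat.zero_le _) (hb (Nat.succ_pos i))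
  · exact lt_of_le_of_lt (Nat.zero_le _) (hc (Nat.succ_pos i))
  · obtain ⟨h3, h4⟩ := h2 (i + 1) (j + 1) (Nat.succ_lt_succ hij)
    refine ⟨?_, h4⟩
    have hbc : b 0 < b (i + 1) := hb (Nat.succ_pos i)
    have hbc2 : c 0 < c (j + 1) := hc (Nat.succ_pos j)
    generalize hm : b (i + 1) + c (j + 1) = m at *
    have hm2 : 2 ≤ m := by omega
    have hprod : m.primeFactorsList.prod = m := Nat.prod_primeFactorsList (by omega)
    match hl : m.primeFactorsList, h3, hprod with
    | [], _, hprod => simp at hprod; omega
    | [p], _, hprod =>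
      left
      have hp : p.Prime := Nat.prime_of_mem_primeFactorsList (n := m) (by rw [hl]; simp)
      simp at hprod
      rw [← hprod]
      exact hp
    | [p, q], _, hprod =>
      right
      have hp : p.Prime := Nat.prime_of_mem_primeFactorsList (n := m) (by rw [hl]; simp)
      have hq : q.Prime := Nat.prime_of_mem_primeFactorsList (n := m) (by rw [hl]; simp)
      simp at hprod
      exact ⟨p, q, hp, hq, hprod.symm⟩
    | p :: q :: r :: l, h3, _ => simp at h3
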